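import Pool.Agent.CT3D.Final

/-!
# At least five ninths of the curves `x³ + y³ = a` over `ℚ(ω)`, `a` prime to three, satisfy the
rank conjecture
-/

namespace Pool.Agent.Results.MP_cd906c_nt.CubicProportion

open NumberField

/-- The elliptic curve `y² = x³ + 16 a²`, the cubic twist by `a` of `y² = x³ + 16`; for `a ≠ 0` it is
isomorphic to the curve `X³ + Y³ = a Z³`. -/
def E {K : Type*} [Field K] (a : K) : WeierstrassCurve K := ⟨0, 0, 0, 0, 16 * a ^ 2⟩

open Classical in
/-- The Mordell-Weil group of `E a` over `K` is finite, and the order of vanishing at one of every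
entire function which agrees with the Hasse-Weil `L`-series of `E a` over `K` on `Re s > 3/2` is
equal to the rank. -/
def RankZero {K : Type*} [Field K] [NumberField K] (a : K) : Prop :=
  Finite (E a).toAffine.Point ∧ ∀ G : ℂ → ℂ, Differentiable ℂ G →
    (∀ s : ℂ, 3 / 2 < s.re → G s = (E a).LSeries s) →
    analyticOrderAt G 1 = Module.finrank ℤ (E a).toAffine.Point

/-- The cube-free elements of the ring of integers which are prime to three. -/
def T (F : Type*) [Field F] [NumberField F] : Set (𝓞 F) :=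
  {a | (∀ x : 𝓞 F, x ^ 3 ∣ a → IsUnit x) ∧ IsCoprime a 3}

/-- The absolute norm of an integer, as a real number. -/
noncomputable def N {F : Type*} [Field F] [NumberField F] (a : 𝓞 F) : ℝ :=
  |((Algebra.norm ℤ a : ℤ) : ℝ)|

lemma N_eq {F : Type*} [Field F] [NumberField F] (a : 𝓞 F) : N a = (MD.nm a : ℝ) := by
  rw [N, MD.nm, Ideal.absNorm_span_singleton, Nat.cast_natAbs, Int.cast_abs]

/-- Let `F = ℚ(ω)` and `δ < 5/9`. For all `σ > 1` close to one, the sum of `(N a)^(-σ)` over all
cube-free `a` prime to three in the ring of integers converges, and the part of it coming from those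
`a` for which `x³ + y³ = a` has a finite Mordell-Weil group over `F` and satisfies the rank conjecture
is at least `δ` times the whole. -/
theorem result (F : Type*) [Field F] [NumberField F] [IsCyclotomicExtension {3} ℚ F]
    (δ : ℝ) (hδ : δ < 5 / 9) :
    ∃ σ₀ : ℝ, 1 < σ₀ ∧ ∀ σ : ℝ, 1 < σ → σ < σ₀ →
      Summable (fun a : T F => N a.1 ^ (-σ)) ∧
      δ * ∑' a : T F, N a.1 ^ (-σ) ≤
        ∑' a : {a : 𝓞 F // a ∈ T F ∧ RankZero (a : F)}, N a.1 ^ (-σ) := by
  obtain ⟨D⟩ := BSD.exists_eisData F
  have : IsPrincipalIdealRing (𝓞 F) := IsCyclotomicExtension.Rat.three_pid F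
  obtain ⟨σ₀, h1, h⟩ := C3D.density3 (F := F) D hδ
  refine ⟨σ₀, h1, fun σ h2 h3 => ?_⟩
  simp only [N_eq]
  exact ⟨C3D.summable_cf D h2, h σ h2 h3⟩

end Pool.Agent.Results.MP_cd906c_nt.CubicProportion
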