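import Pool.Agent.BSD36G.FinalG

/-!
# At least four ninths of the quadratic twists of `y² = x³ + 1` over `ℚ(ω)` satisfy the rank
conjecture
-/

namespace Pool.Agent.Results.MP_cd906c_nt.PositiveProportion

open NumberField

/-- The elliptic curve `y² = x³ + b³`, the quadratic twist by `b` of `y² = x³ + 1`. -/
def E {K : Type*} [Field K] (b : K) : WeierstrassCurve K := ⟨0, 0, 0, 0, b ^ 3⟩

open Classical in
/-- The Mordell-Weil group of `E b` over `K` is finite, and the order of vanishing at one of every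
entire function which agrees with the Hasse-Weil `L`-series of `E b` over `K` on `Re s > 3/2` is
equal to the rank. -/
def RankZero {K : Type*} [Field K] [NumberField K] (b : K) : Prop :=
  Finite (E b).toAffine.Point ∧ ∀ G : ℂ → ℂ, Differentiable ℂ G →
    (∀ s : ℂ, 3 / 2 < s.re → G s = (E b).LSeries s) →
    analyticOrderAt G 1 = Module.finrank ℤ (E b).toAffine.Point

/-- The squarefree elements of the ring of integers. -/
def S (F : Type*) [Field F] [NumberField F] : Set (𝓞 F) := {β | Squarefree β}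

/-- The absolute norm of an integer, as a real number. -/
noncomputable def N {F : Type*} [Field F] [NumberField F] (β : 𝓞 F) : ℝ :=
  |((Algebra.norm ℤ β : ℤ) : ℝ)|

lemma rankZero_iff {F : Type*} [Field F] [NumberField F] (β : 𝓞 F) :
    RankZero (β : F) ↔ MD.RZ β := Iff.rfl

lemma N_eq {F : Type*} [Field F] [NumberField F] (β : 𝓞 F) : N β = (MD.nm β : ℝ) := by
  rw [N, MD.nm, Ideal.absNorm_span_singleton, Nat.cast_natAbs, Int.cast_abs]

/-- Let `F = ℚ(ω)` and `δ < 4/9`. For all `σ > 1` close to one, the sum of `(N β)^(-σ)` over all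
squarefree `β` in the ring of integers converges, and the part of it coming from those `β` for
which `y² = x³ + β³` has a finite Mordell-Weil group over `F` and satisfies the rank conjecture is
at least `δ` times the whole. -/
theorem result (F : Type*) [Field F] [NumberField F] [IsCyclotomicExtension {3} ℚ F]
    (δ : ℝ) (hδ : δ < 4 / 9) :
    ∃ σ₀ : ℝ, 1 < σ₀ ∧ ∀ σ : ℝ, 1 < σ → σ < σ₀ →
      Summable (fun β : S F => N β.1 ^ (-σ)) ∧
      δ * ∑' β : S F, N β.1 ^ (-σ) ≤
        ∑' β : {β : 𝓞 F // β ∈ S F ∧ RankZero (β : F)}, N β.1 ^ (-σ) := by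
  obtain ⟨D⟩ := BSD.exists_eisData F
  have : IsPrincipalIdealRing (𝓞 F) := IsCyclotomicExtension.Rat.three_pid F
  obtain ⟨σ₀, h1, h⟩ := MD.density_allG D hδ
  refine ⟨σ₀, h1, fun σ h2 h3 => ?_⟩
  have h4 := MD.summable_all D h2
  have h5 := h σ h2 h3
  have e1 : (fun β : S F => N β.1 ^ (-σ)) = fun β : S F => (MD.nm β.1 : ℝ) ^ (-σ) :=
    funext fun β => by rw [N_eq]
  have e2 : (fun β : {β : 𝓞 F // β ∈ S F ∧ RankZero (β : F)} => N β.1 ^ (-σ)) =
      fun β => (MD.nm β.1 : ℝ) ^ (-σ) := funext fun β => by rw [N_eq]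
  rw [e1, e2]
  exact ⟨h4, h5⟩

end Pool.Agent.Results.MP_cd906c_nt.PositiveProportion
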