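import Pool.Agent.PTow9.Glue

/-!
# The rank conjecture for twists of the curve of conductor 27 over subfields of Galois extensions of
`ℚ(ω)` of prime power degree
-/

namespace Pool.Agent.Results.MP_cd906c_nt.PrimeTowers

open NumberField IsDedekindDomain

/-- The elliptic curve `y² = x³ + 16 a³`, over any field. -/
def E {K : Type*} [Field K] (a : K) : WeierstrassCurve K := ⟨0, 0, 0, 0, 16 * a ^ 3⟩

/-- The number of points, with the point at infinity, of `y² + y = x³` over the quotient by an
ideal. (The curve `y² + y = x³` is isomorphic to `y² = x³ + 16` where two is invertible, and has good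
reduction at all places prime to three.) -/
noncomputable def pts {R : Type*} [CommRing R] (Q : Ideal R) : ℕ :=
  1 + Nat.card {z : (R ⧸ Q) × (R ⧸ Q) // z.2 ^ 2 + z.2 = z.1 ^ 3}

universe u v

open BSD PTow9 Classical in
/-- Let `F = ℚ(ω)` be the field of third roots of unity, `p ≠ 3` a prime number and `L` a Galois
extension of `F` of degree a power of `p` such that, for every prime `P` of `L` which ramifies over
`F` (divides the different of `L/F`), either `P` divides three, or `P` does not divide `p` and `p`
does not divide the number of points of `y² + y = x³` over the residue field of `F` below `P`.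
Let `K` be any number field which embeds in `L` (it need not contain `ω`, nor be Galois over any
field) and `a` a nonzero integer of `K` which becomes a square in `L`. Then the Mordell-Weil group
over `K` of `E : y² = x³ + 16 a³` is finite, and the order of vanishing at one of every entire
function which agrees with the Hasse-Weil `L`-series of `E` over `K` on `Re s > 3/2` is equal to
the rank of `E` over `K` (both being zero). -/
theorem result (F : Type u) [Field F] [NumberField F] [IsCyclotomicExtension {3} ℚ F]
    (p : ℕ) (hp : p.Prime) (hp3 : p ≠ 3)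
    (L : Type u) [Field L] [NumberField L] [Algebra F L] [IsGalois F L] (n : ℕ)
    (hn : Module.finrank F L = p ^ n)
    (hram : ∀ P : Ideal (𝓞 L), P.IsPrime → P ∣ differentIdeal (𝓞 F) (𝓞 L) →
      (3 : 𝓞 L) ∈ P ∨ ((p : 𝓞 L) ∉ P ∧ ¬ p ∣ pts (P.comap (algebraMap (𝓞 F) (𝓞 L)))))
    (K : Type v) [Field K] [NumberField K] [Algebra K L] (a : 𝓞 K) (ha : a ≠ 0)
    (hsq : IsSquare (algebraMap K L (a : K))) :
    Finite (E (a : K)).toAffine.Point ∧ ∀ G : ℂ → ℂ, Differentiable ℂ G →
      (∀ s : ℂ, 3 / 2 < s.re → G s = (E (a : K)).LSeries s) →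
      analyticOrderAt G 1 = Module.finrank ℤ (E (a : K)).toAffine.Point := by
  haveI : Fact p.Prime := ⟨hp⟩
  haveI : IsPrincipalIdealRing (𝓞 F) := IsCyclotomicExtension.Rat.three_pid F
  obtain ⟨D⟩ := exists_eisData F
  -- ramification
  have hram' : ∀ w : HeightOneSpectrum (𝓞 L), ri F w ≠ 1 →
      (3 : 𝓞 L) ∈ w.asIdeal ∨ ((p : 𝓞 L) ∉ w.asIdeal ∧ ¬ p ∣ cnt (𝓞 F ⧸ (below F w).asIdeal)) := by
    intro w hw
    have hdvd : w.asIdeal ∣ differentIdeal (𝓞 F) (𝓞 L) := by
      have := (below F w).isMaximal
      have h1 : w.asIdeal ^ ri F w ∣ (below F w).asIdeal.map (algebraMap (𝓞 F) (𝓞 L)) :=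
        Ideal.dvd_iff_le.2 Ideal.le_pow_ramificationIdx'
      have h2 := pow_sub_one_dvd_differentIdeal (𝓞 F) w.asIdeal (ri F w) (below F w).ne_bot h1
      have h3 := ri_ne_zero (K := F) w
      exact (dvd_pow_self _ (by omega)).trans h2
    exact hram w.asIdeal w.isPrime hdvd
  -- the two halves
  have hmain : Finite (twistCurve (1 : L)).toAffine.Point ∧ ∀ G : ℂ → ℂ, Differentiable ℂ G →
      (∀ s : ℂ, 3 / 2 < s.re → G s = (twistCurve (a : K)).LSeries s) → G 1 ≠ 0 := by
    rcases eq_or_ne p 2 with rfl | hp2
    · -- two-power degree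
      have hsil : ∀ w : HeightOneSpectrum (𝓞 L), ri F w ≠ 1 →
          (3 : 𝓞 L) ∈ w.asIdeal ∨ Silent (below F w) := by
        intro w hw
        by_cases h3 : (3 : 𝓞 L) ∈ w.asIdeal
        · exact Or.inl h3
        right
        rcases hram' w hw with h | ⟨h2, h⟩
        · exact absurd h h3
        refine silent_of_odd D _ (fun h' => h2 ?_) (fun h' => h3 ?_) h
        · exact_mod_cast (ofNat_mem_below w 2).1 h'
        · exact (ofNat_mem_below w 3).1 h'
      have hU : Unr2 L := by
        intro w hw
        have h2 : (2 : 𝓞 L) ∈ w.asIdeal := Ideal.pow_le_self two_ne_zero hw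
        have h1 : ri F w = 1 := by
          by_contra hne
          rcases hsil w hne with h | h
          · exact three_notMem_of_two h2 h
          · exact h.two_not_mem ((ofNat_mem_below w 2).2 h2)
        have h4 := val_below w (2 : F)
        rw [(good_eis.{u, 0} F).two _ ((ofNat_mem_below w 2).2 h2), h1, pow_one, map_ofNat] at h4
        rw [← Ideal.dvd_span_singleton, ← w.intValuation_le_pow_iff_dvd] at hw
        have h8 : w.valuation L (algebraMap (𝓞 L) L 2) = _ := w.valuation_of_algebraMap 2
        rw [← h8, map_ofNat, h4, WithZero.exp_le_exp] at hw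
        norm_num at hw
      refine ⟨?_, fun G hG hGL => nonvanish D hn hU hsil ha hsq G hG hGL⟩
      have h1 : ((1 : 𝓞 L) : L) = 1 := map_one _
      have := BSD.finite_points (good_galF n L hn hsil).1
        (d := ((1 : 𝓞 L) : L)) (by rw [h1]; exact one_ne_zero)
        (twistOK_of_int 1 1 (by simp) (by
          intro v hv
          exact absurd ((Ideal.eq_top_iff_one _).2 hv) v.isPrime.ne_top))
      rwa [h1] at this
    · -- odd degree
      have hp5 : 5 ≤ p := by
        have h2 := hp.two_le
        rcases Nat.lt_or_ge p 5 with h | h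
        · interval_cases p
          · exact absurd rfl hp2
          · exact absurd rfl hp3
          · norm_num at hp
        · exact h
      have hri : ∀ w : HeightOneSpectrum (𝓞 L), ri F w = w.asIdeal.ramificationIdx (𝓞 F) :=
        fun w => Ideal.ramificationIdx'_eq_ramificationIdx (below F w).asIdeal w.asIdeal
          (below F w).ne_bot
      have h3w : ∀ w : HeightOneSpectrum (𝓞 L), ri F w ≠ 1 → (3 : 𝓞 L) ∉ w.asIdeal :=
        fun w hw h3 => hw (by rw [hri]; exact unram_three D hp hp5 hn w h3)
      constructor
      · apply finite_twist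
        refine EP.finite_points D L hp hp5 hn (fun w hw => ?_)
        rw [← hri] at hw
        have h3 := h3w w hw
        rcases hram' w hw with h | ⟨hpw, h⟩
        · exact absurd h h3
        refine ⟨?_, ?_, fun β hβ hb => ?_⟩
        · have h4 := val_eq_one_of_notMem h3
          rwa [map_ofNat] at h4
        · have h4 := val_eq_one_of_notMem hpw
          rwa [map_natCast] at h4
        · rw [← cnt_eq_of_span D hβ hb]
          exact h
      · intro G hG hGL
        refine PTow9.nonvanish (p := p) D hp5 hn (fun w hw => ?_) ha hsq G hG hGL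
        have h3 := h3w w hw
        rcases hram' w hw with h | ⟨hpw, h⟩
        · exact absurd h h3
        exact ⟨hpw, silP_of_cnt D (fun h' => h3 ((ofNat_mem_below w 3).1 h')) h⟩
  obtain ⟨hL, hnv⟩ := hmain
  have ha' : (a : K) ≠ 0 := by rwa [Ne, RingOfIntegers.coe_eq_zero_iff]
  have hfin : Finite (E (a : K)).toAffine.Point := BSD.finite_points_sub hL ha' hsq
  refine ⟨hfin, fun G hG hGL => ?_⟩
  have h0 : Module.finrank ℤ (E (a : K)).toAffine.Point = 0 := by
    rw [Module.finrank_eq_zero_iff_isTorsion]
    intro x
    obtain ⟨n, hn, hn'⟩ := isOfFinAddOrder_iff_nsmul_eq_zero.1 (isOfFinAddOrder_of_finite x)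
    exact ⟨⟨(n : ℤ), mem_nonZeroDivisors_of_ne_zero (by exact_mod_cast hn.ne')⟩, by
      change (n : ℤ) • x = 0
      rw [natCast_zsmul]; exact hn'⟩
  have hne : G 1 ≠ 0 := hnv G hG hGL
  rw [h0, Nat.cast_zero, AnalyticAt.analyticOrderAt_eq_zero (hG.analyticAt 1)]
  exact hne

end Pool.Agent.Results.MP_cd906c_nt.PrimeTowers
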