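import Pool.Agent.BSD3.Final
import Pool.Agent.BSD3.Desc12

/-!
# The rank conjecture for a curve with good reduction above three and its cubic twists over subfields
of Galois extensions of `ℚ(ω)` of three-power degree
-/

namespace Pool.Agent.Results.MP_cd906c_nt.ThreeTowers

open NumberField IsDedekindDomain

/-- The elliptic curve `y² = x³ + 48 (4 - ω) a²`, over any field. -/
def E {K : Type*} [Field K] (ω a : K) : WeierstrassCurve K := ⟨0, 0, 0, 0, 48 * (4 - ω) * a ^ 2⟩

universe u v

open BSD BSD3 Classical in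
/-- Let `F = ℚ(ω)` with `ω² + ω + 1 = 0`, and let `L` be a Galois extension of `F` of degree a power
of three such that every prime of `L` which ramifies over `F` (divides the different of `L/F`) does
not divide three, and divides two, or divides `2 + 3 ω` (a prime of norm seven), or lies above a
prime of `F` modulo which `3 (4 - ω)` is not a square. Let `K` be any field between `F` and `L` and
`a` a nonzero integer of `K` which becomes a cube in `L`. Then the Mordell-Weil group over `K` of
`E : y² = x³ + 48 (4 - ω) a²` is finite, and the order of vanishing at one of every entire function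
which agrees with the Hasse-Weil `L`-series of `E` over `K` on `Re s > 3/2` is equal to the rank of
`E` over `K` (both being zero). -/
theorem result (F : Type u) [Field F] [NumberField F] [IsCyclotomicExtension {3} ℚ F]
    (ω : 𝓞 F) (hω : ω ^ 2 + ω + 1 = 0)
    (L : Type u) [Field L] [NumberField L] [Algebra F L] [IsGalois F L] (n : ℕ)
    (hn : Module.finrank F L = 3 ^ n)
    (hram : ∀ P : Ideal (𝓞 L), P.IsPrime → P ∣ differentIdeal (𝓞 F) (𝓞 L) →
      (3 : 𝓞 L) ∉ P ∧ ((2 : 𝓞 L) ∈ P ∨ algebraMap (𝓞 F) (𝓞 L) (2 + 3 * ω) ∈ P ∨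
        ∀ t : 𝓞 F, algebraMap (𝓞 F) (𝓞 L) (t ^ 2 - 3 * (4 - ω)) ∉ P))
    (K : Type v) [Field K] [NumberField K] [Algebra F K] [Algebra K L] [IsScalarTower F K L]
    (a : 𝓞 K) (ha : a ≠ 0) (hcube : ∃ c : L, c ^ 3 = algebraMap K L (a : K)) :
    Finite (E (algebraMap F K (ω : F)) (a : K)).toAffine.Point ∧ ∀ G : ℂ → ℂ, Differentiable ℂ G →
      (∀ s : ℂ, 3 / 2 < s.re → G s = (E (algebraMap F K (ω : F)) (a : K)).LSeries s) →
      analyticOrderAt G 1 = Module.finrank ℤ (E (algebraMap F K (ω : F)) (a : K)).toAffine.Point := by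
  -- the data of `ℚ(ω)`
  have : IsPrincipalIdealRing (𝓞 F) := IsCyclotomicExtension.Rat.three_pid F
  obtain ⟨D0⟩ := exists_eisData F
  have hω' : ω = D0.z ∨ ω = -1 - D0.z := by
    have h1 : (ω - D0.z) * (ω - (-1 - D0.z)) = 0 := by linear_combination hω - D0.hz
    rcases mul_eq_zero.1 h1 with h | h
    · exact Or.inl (sub_eq_zero.1 h)
    · exact Or.inr (sub_eq_zero.1 h)
  have hrep : ∀ x : 𝓞 F, ∃ m k : ℤ, x = m + k * ω := by
    intro x
    obtain ⟨m, k, rfl⟩ := D0.rep x
    rcases hω' with h | h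
    · exact ⟨m, k, by rw [h]⟩
    · exact ⟨m - k, -k, by rw [h]; push_cast; ring⟩
  let D : EisData F := ⟨ω, hω, hrep, D0.ι⟩
  have hDz : D.z = ω := rfl
  -- ramification
  have hram' : ∀ w : HeightOneSpectrum (𝓞 L), ri F w ≠ 1 →
      (3 : 𝓞 L) ∉ w.asIdeal ∧ SilF D (below F w) := by
    intro w hw
    have hdvd : w.asIdeal ∣ differentIdeal (𝓞 F) (𝓞 L) := by
      have := (below F w).isMaximal
      have h1 : w.asIdeal ^ ri F w ∣ (below F w).asIdeal.map (algebraMap (𝓞 F) (𝓞 L)) :=
        Ideal.dvd_iff_le.2 Ideal.le_pow_ramificationIdx'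
      have h2 := pow_sub_one_dvd_differentIdeal (𝓞 F) w.asIdeal (ri F w) (below F w).ne_bot h1
      have h3 := ri_ne_zero (K := F) w
      exact (dvd_pow_self _ (by omega)).trans h2
    obtain ⟨h3, h⟩ := hram w.asIdeal w.isPrime hdvd
    refine ⟨h3, ?_⟩
    rcases h with h | h | h
    · exact Or.inl ((ofNat_mem_below w 2).2 h)
    · exact Or.inr (Or.inl ((mem_below w _).2 h))
    · by_cases h2 : (2 : 𝓞 F) ∈ (below F w).asIdeal
      · exact Or.inl h2
      right; right
      intro t ht
      -- four is invertible modulo the prime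
      have := (below F w).isMaximal
      have h4 : (4 : 𝓞 F) ∉ (below F w).asIdeal := by
        intro h4
        have : (4 : 𝓞 F) = 2 * 2 := by norm_num
        rw [this] at h4
        exact (((below F w).isPrime.mem_or_mem h4).elim h2 h2)
      obtain ⟨r, hr⟩ : ∃ r : 𝓞 F, r * 4 - 1 ∈ (below F w).asIdeal := by
        obtain ⟨r, i, hi, hri⟩ := Ideal.IsMaximal.exists_inv
          (show ((below F w).asIdeal).IsMaximal from inferInstance) h4
        exact ⟨r, by
          have : r * 4 - 1 = -i := by linear_combination hri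
          rw [this]
          exact neg_mem hi⟩
      apply h (r * t)
      rw [← mem_below]
      have hbb : bb D = 16 * (3 * (4 - ω)) := by
        rw [bb_eq, th_sq, hDz]; ring
      rw [hbb] at ht
      have e : (r * t) ^ 2 - 3 * (4 - ω)
          = r ^ 2 * (t ^ 2 - 16 * (3 * (4 - ω))) + (r * 4 - 1) * ((r * 4 + 1) * (3 * (4 - ω))) := by
        ring
      rw [e]
      exact add_mem (Ideal.mul_mem_left _ _ ht) (Ideal.mul_mem_right _ _ hr)
  have hR3 : Ram3 D L := by
    intro w
    by_cases h : ri F w = 1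
    · exact Or.inr h
    · exact Or.inl (hram' w h)
  obtain ⟨c, hc⟩ := hcube
  have ha' : (a : K) ≠ 0 := by rwa [Ne, RingOfIntegers.coe_eq_zero_iff]
  have hbbK : algebraMap F K ((bb D : 𝓞 F) : F) = 48 * (4 - algebraMap F K (ω : F)) := by
    have h1 : bb D = 48 * (4 - ω) := by
      rw [bb_eq, th_sq, hDz]; ring
    rw [h1]
    have h2 : ((48 * (4 - ω) : 𝓞 F) : F) = 48 * (4 - (ω : F)) := by
      have : ((48 * (4 - ω) : 𝓞 F) : F) = algebraMap (𝓞 F) F (48 * (4 - ω)) := rfl
      rw [this, map_mul, map_sub, map_ofNat, map_ofNat]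
    rw [h2, map_mul, map_sub, map_ofNat, map_ofNat]
  have hE1 : E (algebraMap F K (ω : F)) (a : K)
      = cv (algebraMap F K ((bb D : 𝓞 F) : F) * (a : K) ^ 2) := by
    rw [E, cv, hbbK]
  have hE2 : E (algebraMap F K (ω : F)) (a : K) = cv ((ba D a : 𝓞 K) : K) := by
    rw [hE1]
    congr 1
  -- finiteness
  have hfin : Finite (E (algebraMap F K (ω : F)) (a : K)).toAffine.Point := by
    rw [hE1]
    have hL := finite_galois D hn hR3
    rw [IsScalarTower.algebraMap_apply F K L] at hL
    refine finite_points_sub3 hL ?_ ha' hc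
    rw [hbbK]
    intro h0
    have h1 : (4 : K) - algebraMap F K (ω : F) = 0 := by
      rcases mul_eq_zero.1 h0 with h | h
      · norm_num at h
      · exact h
    have h2 := congrArg (algebraMap F K) (congrArg (algebraMap (𝓞 F) F) hω)
    simp only [map_add, map_pow, map_one, map_zero] at h2
    rw [← sub_eq_zero.1 h1] at h2
    norm_num at h2
  refine ⟨hfin, fun G hG hGL => ?_⟩
  have h0 : Module.finrank ℤ (E (algebraMap F K (ω : F)) (a : K)).toAffine.Point = 0 := by
    rw [Module.finrank_eq_zero_iff_isTorsion]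
    intro x
    obtain ⟨n, hn, hn'⟩ := isOfFinAddOrder_iff_nsmul_eq_zero.1 (isOfFinAddOrder_of_finite x)
    exact ⟨⟨(n : ℤ), mem_nonZeroDivisors_of_ne_zero (by exact_mod_cast hn.ne')⟩, by
      change (n : ℤ) • x = 0
      rw [natCast_zsmul]; exact hn'⟩
  have hne : G 1 ≠ 0 := by
    refine nonvanish D hn hram' ha hc G hG (fun s hs => ?_)
    rw [hGL s hs, hE2]
  rw [h0, Nat.cast_zero, AnalyticAt.analyticOrderAt_eq_zero (hG.analyticAt 1)]
  exact hne

end Pool.Agent.Results.MP_cd906c_nt.ThreeTowers
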